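import Pool.Agent.Helper86.AP.Goals

/-!
Packet AP-PC: case (iii) of the pairing structure.
-/

set_option autoImplicit false

namespace Pool.Agent.Helper27.AP

open Pool.Agent.Helper35.PP Pool.Agent.Helper35.PX Pool.Agent.Helper86.AP

variable {β : Type}

lemma mid (p e x : List β) (h : ℕ) (h1 : p.length ≤ h) (h2 : h < p.length + e.length) :
    (p ++ e ++ x)[h]? = e[h - p.length]? := by
  rw [List.getElem?_append_left (by simp; omega), List.getElem?_append_right h1]

lemma lst (p c x : List β) (h : ℕ) (h1 : p.length + c.length ≤ h) :
    (p ++ c ++ x)[h]? = x[h - (p.length + c.length)]? := by
  rw [List.getElem?_append_right (by simp; omega), List.length_append]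

theorem tPC : S_PC := by
  intro β M a d p1 c1 x1 q1 z1 p0 c0 x0 q0 z0 l hM ha1 hd1 ha0 hd0 hx1 hz0 hl1 hl0 hl2
  have hnil : ([] : List β) ∈ M := hM [] [] x1 (by simpa using hx1)
  have hla1 : a.length = p1.length + c1.length + x1.length := by
    rw [ha1, List.length_append, List.length_append]
  have hla0 : a.length = p0.length + c0.length + x0.length := by
    rw [ha0, List.length_append, List.length_append]
  have f1 : ∀ h, p1.length ≤ h → h < p1.length + c1.length →
      a[h]? = d[h + q1.length - p1.length]? := by
    intro h h1 h2
    rw [ha1, hd1, mid _ _ _ _ h1 h2, mid _ _ _ _ (by omega) (by omega)]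
    congr 1; omega
  have f0 : ∀ h, q0.length ≤ h → h < q0.length + c0.length →
      d[h]? = a[h - q0.length + p0.length]? := by
    intro h h1 h2
    rw [ha0, hd0, mid _ _ _ _ h1 h2, mid _ _ _ _ (by omega) (by omega)]
    congr 1; omega
  obtain ⟨E, hE⟩ : ∃ E, E = max l (min (q0.length + p1.length - q1.length)
      (min (p1.length + c1.length) p0.length)) := ⟨_, rfl⟩
  refine ⟨E, by omega, by omega, ?_, ?_⟩
  · by_cases hE0 : E = p0.length
    · exact Or.inl hE0
    · refine Or.inr ?_
      by_cases hE1 : E = p1.length + c1.length
      · refine ⟨E, 1, le_refl _, by omega, le_refl _, fun h h1 h2 => absurd h2 (by omega), ?_⟩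
        refine ⟨x1, hx1, [], ⟨[], hnil, [], rfl, rfl⟩, ?_⟩
        rw [hE1, ha1, List.append_nil]
        exact List.drop_left' (by simp)
      · have k1 : E < p0.length := by omega
        have k2 : E < p1.length + c1.length := by omega
        have k3 : q0.length + p1.length ≤ E + q1.length := by omega
        obtain ⟨R, hR⟩ : ∃ R, R = max E (min (p1.length + c1.length)
          (q0.length + c0.length + p1.length - q1.length)) := ⟨_, rfl⟩
        obtain ⟨q, hq⟩ : ∃ q, q = q1.length + p0.length - (p1.length + q0.length) := ⟨_, rfl⟩
        refine ⟨R, q, by omega, by omega, by omega, ?_, ?_⟩
        · intro h h1 h2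
          refine ⟨by omega, ?_⟩
          rw [f1 h (by omega) (by omega), f0 _ (by omega) (by omega)]
          congr 1; omega
        · refine ⟨(a.drop R).take (p1.length + c1.length - R), ?_, x1, ⟨x1, hx1, [], rfl, by simp⟩, ?_⟩
          · by_cases hR1 : R = p1.length + c1.length
            · rw [hR1, Nat.sub_self, List.take_zero]
              exact hnil
            · have k4 : q0.length + c0.length + p1.length ≤ R + q1.length := by omega
              have k5 : R < p1.length + c1.length := by omega
              have e : (a.drop R).take (p1.length + c1.length - R)
                  = (z0.drop (R + q1.length - p1.length - (q0.length + c0.length))).take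
                    (p1.length + c1.length - R) := by
                apply List.ext_getElem?
                intro i
                rw [List.getElem?_take, List.getElem?_take]
                by_cases hi : i < p1.length + c1.length - R
                · rw [if_pos hi, if_pos hi, List.getElem?_drop, List.getElem?_drop,
                    f1 _ (by omega) (by omega), hd0, lst _ _ _ _ (by omega)]
                  congr 1; omega
                · rw [if_neg hi, if_neg hi]
              rw [e]
              apply hM (z0.take (R + q1.length - p1.length - (q0.length + c0.length))) _
                ((z0.drop (R + q1.length - p1.length - (q0.length + c0.length))).drop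
                  (p1.length + c1.length - R))
              rw [List.append_assoc, List.take_append_drop, List.take_append_drop]
              exact hz0
          · have e : x1 = (a.drop R).drop (p1.length + c1.length - R) := by
              rw [List.drop_drop]
              have : R + (p1.length + c1.length - R) = p1.length + c1.length := by omega
              rw [this, ha1]
              exact (List.drop_left' (by simp)).symm
            conv_rhs => rw [e]
            rw [List.take_append_drop]
  · by_cases hEl : E = l
    · exact Or.inl hEl
    · exact Or.inr ⟨by omega, by omega, fun h h1 h2 => f1 h (by omega) (by omega)⟩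

end Pool.Agent.Helper27.AP
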