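import Pool.Agent.Helper86.AP.Goals

/-!
Packet AP-REP: cyclic representation of a word with `m + 1` letters `i`.
-/

set_option autoImplicit false

namespace Pool.Agent.Helper27.AP

open Pool.Agent.Helper35.PP Pool.Agent.Helper35.PX Pool.Agent.Helper86.AP

lemma split_first {α : Type} [DecidableEq α] (i : α) : ∀ t : List (α × Bool),
    0 < t.countP (fun x => x.1 = i) → ∃ (u : List (α × Bool)) (e : Bool) (w : List (α × Bool)),
      t = u ++ (i, e) :: w ∧ ∀ x ∈ u, x.1 ≠ i
  | [], h => by simp at h
  | y :: t, h => by
    by_cases hy : y.1 = i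
    · refine ⟨[], y.2, t, ?_, by simp⟩
      subst hy; rfl
    · rw [List.countP_cons_of_neg (by simpa using hy)] at h
      obtain ⟨u, e, w, rfl, hu⟩ := split_first i t h
      refine ⟨y :: u, e, w, rfl, ?_⟩
      intro x hx
      rcases List.mem_cons.1 hx with rfl | hx
      · exact hy
      · exact hu x hx

lemma rep_lin {α : Type} [DecidableEq α] (i : α) : ∀ (m : ℕ) (e : Bool) (t : List (α × Bool)),
    t.countP (fun x => x.1 = i) = m → ∃ (s : Fin (m + 1) → Bool) (b : Fin (m + 1) → List (α × Bool)),
      (∀ k, ∀ x ∈ b k, x.1 ≠ i) ∧ cw i m s b = (i, e) :: t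
  | 0, e, t, h => by
    refine ⟨fun _ => e, fun _ => t, ?_, ?_⟩
    · intro k x hx
      have := List.countP_eq_zero.1 h x hx
      simpa using this
    · simp [cw]
  | m + 1, e, t, h => by
    obtain ⟨u, e', w, rfl, hu⟩ := split_first i t (by omega)
    have hu0 : u.countP (fun x => decide (x.1 = i)) = 0 := by
      rw [List.countP_eq_zero]
      intro x hx
      simpa using hu x hx
    have hw : w.countP (fun x => x.1 = i) = m := by
      rw [List.countP_append, List.countP_cons_of_pos (by simp), hu0] at h
      omega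
    obtain ⟨s, b, hb, hc⟩ := rep_lin i m e' w hw
    refine ⟨Fin.cons e s, Fin.cons u b, ?_, ?_⟩
    · intro k
      refine Fin.cases ?_ ?_ k
      · intro x hx
        exact hu x (by simpa using hx)
      · intro k' x hx
        exact hb k' x (by simpa using hx)
    · have : cw i (m + 1) (Fin.cons e s) (Fin.cons u b) = ((i, e) :: u) ++ cw i m s b := by
        unfold cw
        rw [List.ofFn_succ, List.flatten_cons]
        simp
      rw [this, hc]
      simp

theorem tREP : S_REP := by
  intro α _ i m c hc
  obtain ⟨u, e, w, rfl, hu⟩ := split_first i c (by omega)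
  have h1 : (w ++ u).countP (fun x => x.1 = i) = m := by
    have h2 : ((i, e) :: (w ++ u)).countP (fun x => decide (x.1 = i)) = m + 1 := by
      rw [← hc]
      apply List.Perm.countP_eq
      exact (List.perm_append_comm (l₁ := (i, e) :: w) (l₂ := u))
    rw [List.countP_cons_of_pos (by simp)] at h2
    omega
  obtain ⟨s, b, hb, h3⟩ := rep_lin i m e (w ++ u) h1
  refine ⟨s, b, hb, ?_⟩
  rw [h3]
  exact List.isRotated_append (l := (i, e) :: w) (l' := u)

end Pool.Agent.Helper27.AP
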